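import Pool.Agent.W602.GT.KDefs

/-!
Definitions: the Iitaka dimension of divisors over a function field, and pseudo-effectivity of
`r K_X - A`.
-/

set_option autoImplicit false

open FF Pool.Agent.W602.GT

namespace Pool.Agent.P8H56.CP

/-- `κ(A) ≥ h` for the divisor `A` on the smooth projective varieties of dimension `w` with the
function field `K` and their blow-ups, which has the multiplicity `a v` along each prime divisor `v`
over them: some multiple `m A`, `m ≥ 1`, has sections `f 0 ≠ 0, ..., f h` such that the `h` ratios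
`f i / f 0` are algebraically independent. -/
def DivKodGe (K : Type) [Field K] [Algebra ℂ K] (w : ℕ) (a : Place ℂ K → ℤ) (h : ℕ) : Prop :=
  ∃ m : ℕ, 1 ≤ m ∧ ∃ f : Fin (h + 1) → K, f 0 ≠ 0 ∧
    (∀ l, ∀ v : Place ℂ K, Divisorial w v → f l = 0 ∨ -(m * a v) ≤ v.ord (f l)) ∧
    AlgebraicIndependent ℂ (fun i : Fin h => f i.succ / f 0)

/-- `r K_X - A` is pseudo-effective, in a strong form: there is a divisor `H` (generated by a finite
set `S` of functions) such that for all `j ≥ 1` the divisor `j (r K_X - A) + H` has a nonzero section: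
a `j r`-fold pluricanonical form whose values on the vector fields which are regular along `v` have
order at least `j (a v) + v(s)`, for some `s ∈ S`. -/
def PsefRest (K : Type) [Field K] [Algebra ℂ K] (w r : ℕ) (a : Place ℂ K → ℤ) : Prop :=
  ∃ S : Finset K, ∀ j : ℕ, 1 ≤ j → ∃ β : (Fin w → Derivation ℂ K K) → K,
    IsPluri (j * r) β ∧ (∃ D, β D ≠ 0) ∧
    ∀ v : Place ℂ K, Divisorial w v → ∀ D : Fin w → Derivation ℂ K K, (∀ i, DerReg v (D i)) →
      β D = 0 ∨ ∃ s ∈ S, s ≠ 0 ∧ j * a v + v.ord s ≤ v.ord (β D)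

/-- `r K_X - A` is pseudo-effective: there is a divisor `H` (generated by a finite set `S` of
functions) such that for all `M ≥ 1` a multiple `j (M (r K_X - A) + H)`, `j ≥ 1`, has a nonzero
section: a `j M r`-fold pluricanonical form whose values on the vector fields which are regular along
`v` have order at least `j (M (a v) + v(s))`, for some `s ∈ S`. -/
def PsefDiff (K : Type) [Field K] [Algebra ℂ K] (w r : ℕ) (a : Place ℂ K → ℤ) : Prop :=
  ∃ S : Finset K, ∀ M : ℕ, 1 ≤ M → ∃ j : ℕ, 1 ≤ j ∧ ∃ β : (Fin w → Derivation ℂ K K) → K,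
    IsPluri (j * M * r) β ∧ (∃ D, β D ≠ 0) ∧
    ∀ v : Place ℂ K, Divisorial w v → ∀ D : Fin w → Derivation ℂ K K, (∀ i, DerReg v (D i)) →
      β D = 0 ∨ ∃ s ∈ S, s ≠ 0 ∧ j * (M * a v + v.ord s) ≤ v.ord (β D)

theorem DivKodGe.mono {K : Type} [Field K] [Algebra ℂ K] {w : ℕ} {a : Place ℂ K → ℤ} {h h' : ℕ}
    (hh : h' ≤ h) (hA : DivKodGe K w a h) : DivKodGe K w a h' := by
  obtain ⟨m, hm, f, hf0, hf, hind⟩ := hA
  refine ⟨m, hm, fun i => f (Fin.castLE (by omega) i), hf0, fun i => hf _, ?_⟩
  exact hind.comp (Fin.castLE hh) (Fin.castLE_injective hh)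

end Pool.Agent.P8H56.CP
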