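import Pool.Agent.P8H56.CP.BDefs
import Pool.Agent.Y169.CH.Top
import Pool.Agent.Y172.Rel

/-!
The inequality of Campana and Peternell from `κ = ν`, for divisors over a function field.
-/

set_option autoImplicit false
set_option linter.overlappingInstances false
set_option linter.unusedSectionVars false

open FF Pool.Agent.W602.GT Pool.Agent.Y169.CH

namespace Pool.Agent.P8H56.CP

section

variable {K : Type} [Field K] [Algebra ℂ K]

theorem ord_prod_pow {ι : Type*} (P : Place ℂ K) (s : Finset ι) (f : ι → K) (b : ι → ℕ)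
    (hf : ∀ i ∈ s, f i ^ b i ≠ 0) : P.ord (∏ i ∈ s, f i ^ b i) = ∑ i ∈ s, (b i : ℤ) * P.ord (f i) := by
  classical
  induction s using Finset.induction_on with
  | empty => simp [P.ord_one]
  | insert i s hi ih =>
    rw [Finset.prod_insert hi, Finset.sum_insert hi,
      P.ord_mul (hf i (Finset.mem_insert_self _ _))
        (Finset.prod_ne_zero_iff.2 fun j hj => hf j (Finset.mem_insert_of_mem hj)),
      ih fun j hj => hf j (Finset.mem_insert_of_mem hj), P.ord_pow]

theorem growth_le {h a C c : ℕ} (hb : ∀ t : ℕ, 1 ≤ t → (t + 1) ^ h ≤ C * (c * t) ^ a) :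
    h ≤ a := by
  by_contra hcon
  push Not at hcon
  have h1 := hb (C * c ^ a + 1) (by omega)
  obtain ⟨T, hT⟩ : ∃ T, T = C * c ^ a + 1 := ⟨_, rfl⟩
  rw [← hT] at h1
  have h2 : (T + 1) ^ (a + 1) ≤ (T + 1) ^ h := Nat.pow_le_pow_right (by omega) hcon
  have h3 : C * (c * T) ^ a ≤ (C * c ^ a) * (T + 1) ^ a := by
    rw [mul_pow, ← mul_assoc]
    exact Nat.mul_le_mul_left _ (Nat.pow_le_pow_left (by omega) _)
  have h4 : (C * c ^ a) * (T + 1) ^ a < (T + 1) ^ (a + 1) := by
    rw [pow_succ, mul_comm]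
    refine Nat.mul_lt_mul_of_pos_left ?_ (Nat.pow_pos (by omega))
    omega
  omega

/-- `K_X` is pseudo-effective -/
theorem apsef_of_rest {w r : ℕ} (hr : 1 ≤ r) {a : Place ℂ K → ℤ} (h : PsefRest K w r a)
    (hA : DivKodGe K w a 0) : APsef w K := by
  classical
  obtain ⟨S, hS⟩ := h
  obtain ⟨m, hm, f, hf0, hf, -⟩ := hA
  refine ⟨insert 1 S, fun N => ?_⟩
  have hmr : 1 ≤ m * r := Nat.mul_pos hm hr
  have hmr' : (1 : ℤ) ≤ ((m * r : ℕ) : ℤ) := by exact_mod_cast hmr
  rcases Nat.eq_zero_or_pos N with rfl | hN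
  · refine ⟨1, le_rfl, fun _ => 1, fun h0 => one_ne_zero (congrFun h0 fun _ => 0), fun A D => by
      simp, fun P _ D _ => ?_⟩
    exact Or.inr ⟨1, Finset.mem_insert_self _ _, one_ne_zero, by simp⟩
  · obtain ⟨β, h1, ⟨D0, hD0⟩, h2⟩ := hS (N * m) (Nat.mul_pos hN hm)
    refine ⟨m * r, hmr, fun D => f 0 ^ N * β D, fun h0 => ?_, fun A D => ?_, fun P hP D hD => ?_⟩
    · exact mul_ne_zero (pow_ne_zero _ hf0) hD0 (congrFun h0 D0)
    · change f 0 ^ N * β _ = _
      rw [h1 A D, show N * m * r = m * r * N by ring]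
      ring
    · change f 0 ^ N * β D = 0 ∨ _
      rcases h2 P hP D hD with h4 | ⟨s, hs, hs0, h4⟩
      · left
        rw [h4, mul_zero]
      by_cases hb : β D = 0
      · left
        rw [hb, mul_zero]
      have h5 := (hf 0 P hP).resolve_left hf0
      have h6 : P.ord s ≤ P.ord (f 0 ^ N * β D) := by
        rw [P.ord_mul (pow_ne_zero _ hf0) hb, P.ord_pow]
        push_cast at h4 ⊢
        have h7 : (N : ℤ) * (-(m * a P)) ≤ N * P.ord (f 0) :=
          mul_le_mul_of_nonneg_left h5 (Int.natCast_nonneg N)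
        linarith
      right
      by_cases h8 : 0 ≤ P.ord s
      · exact ⟨1, Finset.mem_insert_self _ _, one_ne_zero, by
          rw [P.ord_one, mul_zero]
          exact h8.trans h6⟩
      · refine ⟨s, Finset.mem_insert_of_mem hs, hs0, le_trans ?_ h6⟩
        push Not at h8
        nlinarith

/-- the inequality `κ(A) ≤ ν(K_X)` -/
theorem le_of_num {w r h0 l : ℕ} (hr : 1 ≤ r) (hnum : ANum w K h0) {a : Place ℂ K → ℤ}
    (hps : PsefRest K w r a) (hA : DivKodGe K w a l) : l ≤ h0 := by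
  classical
  obtain ⟨S, hS⟩ := hps
  obtain ⟨m, hm, f, hf0, hf, hind⟩ := hA
  obtain ⟨C, hC⟩ := hnum S
  refine growth_le (C := C) (c := (l + 1) * m * r) fun t ht => ?_
  obtain ⟨T, hT⟩ : ∃ T, T = (l + 1) * t := ⟨_, rfl⟩
  have hT1 : 1 ≤ T := by
    rw [hT]
    exact Nat.mul_pos (Nat.succ_pos l) ht
  obtain ⟨β, h1, ⟨D0, hD0⟩, h2⟩ := hS (T * m) (Nat.mul_pos hT1 hm)
  let b : (Fin l → Fin (t + 1)) → Fin (l + 1) → ℕ := fun a =>
    Fin.cons (T - ∑ i, (a i : ℕ)) fun i => (a i : ℕ)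
  have hle : ∀ a : Fin l → Fin (t + 1), ∑ i, (a i : ℕ) ≤ T := by
    intro a
    have h1 : ∑ i, (a i : ℕ) ≤ ∑ _i : Fin l, t :=
      Finset.sum_le_sum fun i _ => Nat.lt_succ_iff.1 (a i).2
    rw [Finset.sum_const, Finset.card_univ, Fintype.card_fin, smul_eq_mul] at h1
    have h2 : l * t ≤ (l + 1) * t := Nat.mul_le_mul_right _ (Nat.le_succ l)
    omega
  have hsum : ∀ a, ∑ i, b a i = T := by
    intro a
    rw [Fin.sum_univ_succ]
    simp only [b, Fin.cons_zero, Fin.cons_succ]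
    exact Nat.sub_add_cancel (hle a)
  let g : (Fin l → Fin (t + 1)) → K := fun a => ∏ i, f i ^ b a i
  have hgv : ∀ a, g a = f 0 ^ T * ∏ i : Fin l, (f i.succ / f 0) ^ (a i : ℕ) := by
    intro a
    change ∏ i, f i ^ b a i = _
    rw [Fin.prod_univ_succ]
    simp only [b, Fin.cons_zero, Fin.cons_succ, div_pow, Finset.prod_div_distrib]
    have h1 : f 0 ^ T = f 0 ^ (T - ∑ i, (a i : ℕ)) * ∏ i, f 0 ^ (a i : ℕ) := by
      rw [Finset.prod_pow_eq_pow_sum, ← pow_add, Nat.sub_add_cancel (hle a)]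
    rw [h1]
    have h2 : ∏ i, f 0 ^ (a i : ℕ) ≠ 0 := Finset.prod_ne_zero_iff.2 fun i _ => pow_ne_zero _ hf0
    field_simp
  have hsec : ∀ c, ASec w S (T * m * r) 1 (fun D => β D * g c) := by
    intro c
    refine ⟨fun A D => ?_, fun P hP D hD => ?_⟩
    · change β _ * g c = _
      rw [h1 A D]
      ring
    · change β D * g c = 0 ∨ _
      by_cases hb : β D = 0
      · exact Or.inl (by rw [hb, zero_mul])
      by_cases hg : g c = 0
      · exact Or.inl (by rw [hg, mul_zero])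
      right
      obtain ⟨s, hs, hs0, h4⟩ := (h2 P hP D hD).resolve_left hb
      refine ⟨s, hs, hs0, ?_⟩
      have hne : ∀ i ∈ (Finset.univ : Finset (Fin (l + 1))), f i ^ b c i ≠ 0 :=
        fun i _ => (Finset.prod_ne_zero_iff.1 hg) i (Finset.mem_univ i)
      have h5 : P.ord (g c) = ∑ i, (b c i : ℤ) * P.ord (f i) := ord_prod_pow P _ _ _ hne
      have h6 : ∀ i, -((b c i : ℤ) * (m * a P)) ≤ (b c i : ℤ) * P.ord (f i) := by
        intro i
        by_cases hb0 : b c i = 0
        · rw [hb0]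
          simp
        have hfi : f i ≠ 0 := fun h3 => hne i (Finset.mem_univ i) (by rw [h3, zero_pow hb0])
        have h3 := (hf i P hP).resolve_left hfi
        have h7 := mul_le_mul_of_nonneg_left h3 (Int.natCast_nonneg (b c i))
        linarith
      have h7 : -((T : ℤ) * (m * a P)) ≤ P.ord (g c) := by
        rw [h5]
        calc -((T : ℤ) * (m * a P)) = ∑ i, -((b c i : ℤ) * (m * a P)) := by
              rw [Finset.sum_neg_distrib, ← Finset.sum_mul]
              have h8 : ∑ i, (b c i : ℤ) = T := by exact_mod_cast hsum c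
              rw [h8]
          _ ≤ _ := Finset.sum_le_sum fun i _ => h6 i
      rw [P.ord_mul hb hg]
      push_cast at h4 ⊢
      linarith
  have hlin : LinearIndependent ℂ fun (c : Fin l → Fin (t + 1)) (D : Fin w → Derivation ℂ K K) =>
      β D * g c := by
    have h3 : LinearIndependent ℂ fun a : Fin l → Fin (t + 1) =>
        ∏ i : Fin l, (f i.succ / f 0) ^ (a i : ℕ) :=
      (Pool.Agent.Y172.mono_indep hind).comp (fun (a : Fin l → Fin (t + 1)) i => (a i : ℕ)) (by
        intro a a' h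
        funext i
        exact Fin.ext (congrFun h i))
    have hne : β D0 * f 0 ^ T ≠ 0 := mul_ne_zero hD0 (pow_ne_zero _ hf0)
    have h4 := h3.map' (LinearMap.mulLeft ℂ (β D0 * f 0 ^ T)) (by
      rw [LinearMap.ker_eq_bot]
      exact fun a b hab => mul_left_cancel₀ hne hab)
    have h5 : (LinearMap.proj D0 : ((Fin w → Derivation ℂ K K) → K) →ₗ[ℂ] K) ∘
        (fun (c : Fin l → Fin (t + 1)) (D : Fin w → Derivation ℂ K K) => β D * g c) =
        (LinearMap.mulLeft ℂ (β D0 * f 0 ^ T)) ∘ fun a : Fin l → Fin (t + 1) =>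
          ∏ i : Fin l, (f i.succ / f 0) ^ (a i : ℕ) := by
      funext c
      change β D0 * g c = β D0 * f 0 ^ T * _
      rw [hgv c]
      ring
    rw [← h5] at h4
    exact h4.of_comp _
  have hTm : 1 ≤ T * m * r := Nat.mul_pos (Nat.mul_pos hT1 hm) hr
  let φ := Fintype.equivFin (Fin l → Fin (t + 1))
  have h6 := hC (T * m * r) _ hTm ⟨_, hlin.comp φ.symm φ.symm.injective, fun i => hsec (φ.symm i)⟩
  rw [Fintype.card_fun, Fintype.card_fin, Fintype.card_fin] at h6
  have h7 : T * m * r = (l + 1) * m * r * t := by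
    rw [hT]
    ring
  rwa [h7] at h6

end

end Pool.Agent.P8H56.CP
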