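import Pool.Agent.R887.Defs

/-!
The Iitaka dimension of a `ℚ`-divisor.
-/

set_option autoImplicit false

open FF Pool.Agent.W602.GT Pool.Agent.Y172

namespace Pool.Agent.P8H56.CP

section

variable {K : Type} [Field K] [Algebra ℂ K] {N : ℕ}

/-- The Iitaka dimension of the `ℚ`-divisor `D` on `X` is at least `h`: for some `m ≥ 1` there are
sections `f 0 ≠ 0, ..., f h` of `m D` (rational functions with order at least `- m D P` along all prime
divisors `P` of `X`) such that the `h` ratios `f 1 / f 0, ..., f h / f 0` are algebraically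
independent. -/
def IitakaGe (y : Fin (N + 1) → K) (D : Place ℂ K → ℚ) (h : ℕ) : Prop :=
  ∃ m : ℕ, 1 ≤ m ∧ ∃ f : Fin (h + 1) → K, f 0 ≠ 0 ∧
    (∀ b P, IsPrimeDivisor y P → f b = 0 ∨ -(m * D P) ≤ (P.ord (f b) : ℚ)) ∧
    AlgebraicIndependent ℂ fun b : Fin h => f b.succ / f 0

theorem IitakaGe.mono {y : Fin (N + 1) → K} {D : Place ℂ K → ℚ} {h h' : ℕ} (hh : h' ≤ h)
    (hD : IitakaGe y D h) : IitakaGe y D h' := by
  obtain ⟨m, hm, f, hf0, hf, hind⟩ := hD
  refine ⟨m, hm, fun i => f (Fin.castLE (by omega) i), hf0, fun i => hf _, ?_⟩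
  exact hind.comp (Fin.castLE hh) (Fin.castLE_injective hh)

end

end Pool.Agent.P8H56.CP
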