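import Pool.Agent.P8H56.CP.Defs
import Pool.Agent.R887.Kap
import Pool.Agent.R887.Nef
import Pool.Agent.R887.DefsNefP
import Pool.Agent.N110.NV.Defs
import Pool.Agent.N110.RK.Stat

/-!
The inequality `κ(D) ≤ ν(K_X + Δ)` if `K_X + Δ - D` is pseudo-effective, with the numerical dimension
which is defined by positive intersection products.
-/

set_option autoImplicit false
set_option linter.overlappingInstances false
set_option linter.unusedSectionVars false

open FF Module MvPolynomial Pool.Agent.W602.GT Pool.Agent.W603.LV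
open Pool.Agent.Y172 Pool.Agent.R887 Pool.Agent.N110

namespace Pool.Agent.P8H56.CP

section

variable {K : Type} [Field K] [Algebra ℂ K] {N n : ℕ} {y : Fin (N + 1) → K}

theorem mul_fn {m : ℕ} {D D' : Place ℂ K → ℚ} {ω : (Fin n → Derivation ℂ K K) → K}
    (hω : IsSection y n m D ω) {f : K}
    (hf : ∀ P, IsPrimeDivisor y P → f = 0 ∨ -(D' P) ≤ (P.ord f : ℚ)) :
    IsSection y n m (D + D') (fun E => ω E * f) := by
  refine ⟨fun A E => ?_, fun P hP E hE => ?_⟩
  · change ω _ * f = _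
    rw [hω.1 A E]
    ring
  · change ω E * f = 0 ∨ _ ≤ ((P.ord (ω E * f) : ℤ) : ℚ)
    by_cases h1 : ω E = 0
    · exact Or.inl (by rw [h1, zero_mul])
    by_cases h2 : f = 0
    · exact Or.inl (by rw [h2, mul_zero])
    right
    rw [P.ord_mul h1 h2]
    have h3 := (hω.2 P hP E hE).resolve_left h1
    have h4 := (hf P hP).resolve_left h2
    push_cast
    simp only [Pi.add_apply]
    linarith

/-- powers of a section of `m D` -/
theorem fn_pow {m : ℕ} {D : Place ℂ K → ℚ} {f : K} {T : ℕ}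
    (hf : ∀ P, IsPrimeDivisor y P → f = 0 ∨ -(m * D P) ≤ (P.ord f : ℚ)) (hT : T ≠ 0) :
    ∀ P, IsPrimeDivisor y P → f ^ T = 0 ∨ -(((T * m) • D) P) ≤ (P.ord (f ^ T) : ℚ) := by
  intro P hP
  rcases hf P hP with h | h
  · exact Or.inl (by rw [h, zero_pow hT])
  · right
    rw [P.ord_pow, Pi.smul_apply, nsmul_eq_mul]
    push_cast
    have h4 := mul_le_mul_of_nonneg_left h (Nat.cast_nonneg (α := ℚ) T)
    linarith

/-- the section of the twisted divisor -/
theorem sec_of_tw {i : Fin (N + 1)} (hy : NormalModel y) {A Δ : Place ℂ K → ℚ}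
    (hAP : ∀ P l, IsPrimeDivisor y P → Centred y l P → A P = P.ord (y i / y l)) {r m : ℕ}
    {ω : (Fin n → Derivation ℂ K K) → K} (hω : IsTwistedSectionP y i n Δ r m ω) :
    IsSection y n r (r • Δ + m • A) ω := by
  refine ⟨hω.1, fun P hP => ?_⟩
  obtain ⟨l', hl'⟩ := exists_centred hy P
  have h2 := hω.2 P l' hP hl'
  rw [← hAP P l' hP hl'] at h2
  rw [Pi.add_apply, Pi.smul_apply, Pi.smul_apply, nsmul_eq_mul, nsmul_eq_mul, neg_add,
    ← sub_eq_add_neg]
  exact h2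

theorem exists_frame (hn : Algebra.trdeg ℂ K = n) :
    ∃ E : Fin n → Derivation ℂ K K, IsFrame E := by
  obtain ⟨x, E, hx, hE⟩ := exists_crd hn (k := ℂ) (K := K)
  exact ⟨E, fun F => ⟨fun j => F (x j), (Pool.Agent.W73.PG.PULL.expand x hx E hE F).symm⟩⟩

/-- **`κ(D) < j` if the numerical dimension of `K_X + Δ` is less than `j` and `K_X + Δ - D` is
pseudo-effective.** -/
theorem iitaka_lt (hy : NormalModel y) (hn : Algebra.trdeg ℂ K = n) {Δ D : Place ℂ K → ℚ} {j : ℕ}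
    (hj : j ≤ n) (hnum : NumDimLt y n Δ j) (hps : LogPsef y n (Δ - D)) : ¬ IitakaGe y D j := by
  classical
  rintro ⟨m2, hm2, f, hf0, hf, hind⟩
  obtain ⟨i, hi⟩ := hy.ne
  obtain ⟨A, hA, hAP⟩ := exists_hyp hy hi
  obtain ⟨g, hg⟩ : ∃ g : Fin j → K, g = fun i => f i.succ / f 0 := ⟨_, rfl⟩
  rw [← hg] at hind
  obtain ⟨u, hu, hd⟩ := exists_complete hy hn hj hind
  obtain ⟨E, hE⟩ := exists_frame hn
  have hm2' : (0 : ℝ) < m2 := by exact_mod_cast hm2
  obtain ⟨t, ht, m0, h⟩ := hnum A hA (1 / (2 * m2 ^ j)) (by positivity)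
  obtain ⟨q, hq⟩ : ∃ q, q = ⌈1 / t⌉₊ + 1 := ⟨_, rfl⟩
  have hqt : 1 ≤ t * q := by
    have h1 : 1 / t ≤ q := by
      rw [hq]
      push_cast
      have := Nat.le_ceil (1 / t)
      linarith
    rw [div_le_iff₀ ht] at h1
    linarith
  have hq1 : 1 ≤ q := by omega
  obtain ⟨m, hm, ω, hω0, hω⟩ := hps i hi q hq1
  have hωE : ω E ≠ 0 := fun h0 => hω0 (pluri_zero hE hω.1 h0)
  have hs := sec_of_tw hy hAP hω
  obtain ⟨S, hS⟩ : ∃ S, S = m0 + 1 := ⟨_, rfl⟩
  have hS1 : 1 ≤ S := by omega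
  have hT : m * q * S ≠ 0 := by positivity
  obtain ⟨M, hM⟩ : ∃ M, M = m2 * S * (m * q) := ⟨_, rfl⟩
  have hsec : ∀ b, IsSection y n M (M • Δ + (m * (m2 * S)) • A)
      (fun F => ω F ^ (m2 * S) * f b ^ (m * q * S)) := by
    intro b
    have h1 := mul_fn (hs.pow (m2 * S)) (fn_pow (fun P hP => hf b P hP) hT)
    rw [← hM] at h1
    have h2 : (m2 * S) • ((m * q) • (Δ - D) + m • A) + (m * q * S * m2) • D =
        M • Δ + (m * (m2 * S)) • A := by
      funext P
      simp only [Pi.add_apply, Pi.smul_apply, Pi.sub_apply]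
      simp only [nsmul_eq_mul, hM]
      push_cast
      ring
    rwa [h2] at h1
  have hMm : m0 ≤ M := by
    have h1 : 1 ≤ m2 * (m * q) := Nat.mul_pos hm2 (Nat.mul_pos hm hq1)
    rw [hM]
    calc m0 ≤ S * 1 := by omega
      _ ≤ S * (m2 * (m * q)) := Nat.mul_le_mul_left _ h1
      _ = m2 * S * (m * q) := by ring
  have hmr : (1 : ℝ) ≤ m := by exact_mod_cast hm
  have hSr : (1 : ℝ) ≤ S := by exact_mod_cast hS1
  have hqr : (1 : ℝ) ≤ q := by exact_mod_cast hq1
  have hbm : ((m * (m2 * S) : ℕ) : ℝ) ≤ t * M := by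
    rw [hM]
    push_cast
    have h1 : (0 : ℝ) ≤ m * (m2 * S) := by positivity
    calc (m : ℝ) * (m2 * S) = 1 * (m * (m2 * S)) := by ring
      _ ≤ (t * q) * (m * (m2 * S)) := mul_le_mul_of_nonneg_right hqt h1
      _ = t * (m2 * S * (m * q)) := by ring
  have h1 := h M (m * (m2 * S)) hMm hbm u hu (fun b F => ω F ^ (m2 * S) * f b ^ (m * q * S)) E
    hsec (mul_ne_zero (pow_ne_zero _ hωE) (pow_ne_zero _ hf0))
  have hcard : Nat.card (Fin (n - j) ⊕ Fin j) = n := by
    rw [Nat.card_eq_fintype_card, Fintype.card_sum, Fintype.card_fin, Fintype.card_fin]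
    omega
  obtain ⟨T, hTd⟩ : ∃ T, T = m * q * S := ⟨_, rfl⟩
  have h2 := dg_pow_all (k := ℂ) (by rw [hn, hcard]) (Sum.elim u g) (Finset.univ.image Sum.inr)
    (q := T) (by omega) hd.ne'
  rw [Finset.card_image_of_injective _ Sum.inr_injective, Finset.card_univ,
    Fintype.card_fin] at h2
  have hrat : ∀ i : Fin j, ω E ^ (m2 * S) * f i.succ ^ (m * q * S) /
      (ω E ^ (m2 * S) * f 0 ^ (m * q * S)) = g i ^ T := by
    intro i
    rw [mul_div_mul_left _ _ (pow_ne_zero _ hωE), hg, ← hTd, div_pow]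
  have h3' : (Sum.elim u fun i : Fin j => ω E ^ (m2 * S) * f i.succ ^ (m * q * S) /
      (ω E ^ (m2 * S) * f 0 ^ (m * q * S))) =
      fun i => if i ∈ Finset.univ.image Sum.inr then Sum.elim u g i ^ T
        else Sum.elim u g i := by
    funext i
    rcases i with i | i
    · simp
    · rw [Sum.elim_inr, hrat]
      simp
  have h3 : degreeOver u (fun i : Fin j => ω E ^ (m2 * S) * f i.succ ^ (m * q * S) /
      (ω E ^ (m2 * S) * f 0 ^ (m * q * S))) =
      dg ℂ (fun i => if i ∈ Finset.univ.image Sum.inr then Sum.elim u g i ^ T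
        else Sum.elim u g i) := by
    rw [← h3']
    unfold degreeOver dg
    rw [Set.Sum.elim_range]
  change ((degreeOver u (fun i : Fin j => ω E ^ (m2 * S) * f i.succ ^ (m * q * S) /
    (ω E ^ (m2 * S) * f 0 ^ (m * q * S))) : ℕ) : ℝ) ≤ _ at h1
  rw [h3, h2] at h1
  push_cast at h1
  have hTr : (0 : ℝ) < T := by
    have : 0 < T := by omega
    exact_mod_cast this
  have hd' : (1 : ℝ) ≤ dg ℂ (Sum.elim u g) := by exact_mod_cast hd
  have hMr : (M : ℝ) = m2 * T := by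
    rw [hM, hTd]
    push_cast
    ring
  have h4 : 1 / (2 * (m2 : ℝ) ^ j) * (M : ℝ) ^ j = T ^ j / 2 := by
    rw [hMr, mul_pow]
    field_simp
  rw [h4] at h1
  have h5 : (0 : ℝ) < (T : ℝ) ^ j := by positivity
  nlinarith

/-- `K_X + Δ` is pseudo-effective if `K_X + Δ - D` is and `D` has a section -/
theorem psef_add (hy : NormalModel y) {Δ D : Place ℂ K → ℚ} (hps : LogPsef y n (Δ - D))
    (hD : IitakaGe y D 0) : LogPsef y n Δ := by
  obtain ⟨m2, hm2, f, hf0, hf, -⟩ := hD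
  intro i hi q hq
  obtain ⟨m, hm, ω, hω0, hω⟩ := hps i hi q hq
  refine ⟨m * m2, Nat.mul_pos hm hm2, fun E => ω E ^ m2 * f 0 ^ (m * q), ?_, ?_, ?_⟩
  · obtain ⟨E, hE⟩ : ∃ E, ω E ≠ 0 := by
      by_contra h
      push Not at h
      exact hω0 (funext h)
    intro h0
    exact mul_ne_zero (pow_ne_zero _ hE) (pow_ne_zero _ hf0) (congrFun h0 E)
  · intro A E
    change ω _ ^ m2 * f 0 ^ (m * q) = _
    rw [hω.1 A E]
    rw [mul_pow, ← pow_mul, show m * m2 * q = m * q * m2 by ring]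
    ring
  · intro P l hP hl E hE
    change ω E ^ m2 * f 0 ^ (m * q) = 0 ∨ _ ≤ ((P.ord (ω E ^ m2 * f 0 ^ (m * q)) : ℤ) : ℚ)
    by_cases h1 : ω E = 0
    · exact Or.inl (by rw [h1, zero_pow (by omega), zero_mul])
    right
    have h2 := (hω.2 P l hP hl E hE).resolve_left h1
    have h3 := (hf 0 P hP).resolve_left hf0
    rw [P.ord_mul (pow_ne_zero _ h1) (pow_ne_zero _ hf0), P.ord_pow, P.ord_pow]
    rw [Pi.sub_apply] at h2
    push_cast at h2 ⊢
    have h4 := mul_le_mul_of_nonneg_left h2 (Nat.cast_nonneg (α := ℚ) m2)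
    have h5 := mul_le_mul_of_nonneg_left h3 (mul_nonneg (Nat.cast_nonneg (α := ℚ) m)
      (Nat.cast_nonneg (α := ℚ) q))
    linarith

theorem kappaGe_mono {Δ : Place ℂ K → ℚ} {k k' : ℕ} (hk : k' ≤ k) (h : KappaGe y n Δ k) :
    KappaGe y n Δ k' := by
  obtain ⟨m, hm, ω, E, hω, h0, hind⟩ := h
  refine ⟨m, hm, fun i => ω (Fin.castLE (by omega) i), E, fun i => hω _, h0, ?_⟩
  exact hind.comp (Fin.castLE hk) (Fin.castLE_injective hk)

/-- **Abundance implies the inequality of Campana and Peternell.** -/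
theorem cp_of_abundant (hy : NormalModel y) (hn : Algebra.trdeg ℂ K = n) {Δ D : Place ℂ K → ℚ}
    {k : ℕ} (hk : KappaGe y n Δ k) (hnum : NumDimLt y n Δ (k + 1)) (hps : LogPsef y n (Δ - D))
    {j : ℕ} (hD : IitakaGe y D j) : KappaGe y n Δ j := by
  refine kappaGe_mono ?_ hk
  by_contra hcon
  push Not at hcon
  have hkn : j ≤ n := by
    obtain ⟨m, hm, f, hf0, hf, hind⟩ := hD
    have h1 := hind.lift_cardinalMk_le_trdeg
    rw [hn] at h1
    simp only [Cardinal.mk_fin, Cardinal.lift_natCast] at h1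
    exact_mod_cast h1
  exact iitaka_lt hy hn (by omega) hnum hps (hD.mono (by omega))

end

end Pool.Agent.P8H56.CP
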