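import Pool.Agent.P8H56.CP.BDefs
import Pool.Agent.W602.GT.PsefDefs
import Pool.Agent.TH466.QG.Top
import Pool.Agent.N133.Big

/-!
The inequality of Campana and Peternell if the Kodaira dimension is at least `dim - 1` or the canonical
class is not pseudo-effective, with pseudo-effectivity of `r K_X - A` in the usual sense.
-/

set_option autoImplicit false
set_option linter.overlappingInstances false
set_option linter.unusedSectionVars false

open FF Pool.Agent.W602.GT Pool.Agent.W603.LV

namespace Pool.Agent.P8H56.CP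

section

variable {K : Type} [Field K] [Algebra ℂ K]

theorem indep_pow {h : ℕ} {g : Fin h → K} (hg : AlgebraicIndependent ℂ g) {j : ℕ} (hj : 1 ≤ j) :
    AlgebraicIndependent ℂ fun i => g i ^ j := by
  have h1 := hg.polynomial_aeval_of_transcendental (f := fun _ => (Polynomial.X : Polynomial ℂ) ^ j)
    fun _ => (Polynomial.transcendental_X ℂ).pow hj
  simpa using h1

/-- `K` is pseudo-effective -/
theorem psef_of_diff {w r : ℕ} (hr : 1 ≤ r) {a : Place ℂ K → ℤ} (h : PsefDiff K w r a)
    (hA : DivKodGe K w a 0) : Psef ℂ K w (fun _ => False) := by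
  classical
  obtain ⟨S, hS⟩ := h
  obtain ⟨m, hm, f, hf0, hf, -⟩ := hA
  refine ⟨insert 1 S, fun N => ?_⟩
  rcases Nat.eq_zero_or_pos N with rfl | hN
  · refine ⟨1, one_pos, fun _ => 1, ⟨fun A D => by simp, fun P _ D _ => ?_, fun P _ _ D _ => ?_⟩,
      fun _ => 0, one_ne_zero⟩
    · exact Or.inr ⟨1, Finset.mem_insert_self _ _, one_ne_zero, by simp⟩
    · exact Or.inr ⟨1, Finset.mem_insert_self _ _, one_ne_zero, by simp⟩
  · obtain ⟨j, hj, β, h1, ⟨D0, hD0⟩, h2⟩ := hS (N * m) (Nat.mul_pos hN hm)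
    have h3 : ∀ P : Place ℂ K, Divisorial w P → ∀ D : Fin w → Derivation ℂ K K,
        (∀ i, DerReg P (D i)) → TwReg P (insert 1 S) (j * m * r) (f 0 ^ (j * N) * β D) := by
      intro P hP D hD
      rcases h2 P hP D hD with h4 | ⟨s, hs, hs0, h4⟩
      · left
        rw [h4, mul_zero]
      · by_cases hb : β D = 0
        · left
          rw [hb, mul_zero]
        have h5 := (hf 0 P hP).resolve_left hf0
        have h6 : j * P.ord s ≤ P.ord (f 0 ^ (j * N) * β D) := by
          rw [P.ord_mul (pow_ne_zero _ hf0) hb, P.ord_pow]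
          push_cast at h4 ⊢
          have h7 : ((j : ℤ) * N) * (-(m * a P)) ≤ (j * N) * P.ord (f 0) :=
            mul_le_mul_of_nonneg_left h5 (by positivity)
          linarith
        right
        have hmr : (1 : ℤ) ≤ ((m * r : ℕ) : ℤ) := by exact_mod_cast Nat.mul_pos hm hr
        have hj' : (0 : ℤ) ≤ j := Int.natCast_nonneg j
        by_cases h8 : 0 ≤ P.ord s
        · exact ⟨1, Finset.mem_insert_self _ _, one_ne_zero, by
            rw [P.ord_one, mul_zero]
            exact (mul_nonneg hj' h8).trans h6⟩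
        · refine ⟨s, Finset.mem_insert_of_mem hs, hs0, le_trans ?_ h6⟩
          push Not at h8
          have h9 : ((j * m * r : ℕ) : ℤ) * P.ord s = ((m * r : ℕ) : ℤ) * (j * P.ord s) := by
            push_cast
            ring
          rw [h9]
          have h10 : (j : ℤ) * P.ord s ≤ 0 := mul_nonpos_of_nonneg_of_nonpos hj' h8.le
          nlinarith
    refine ⟨j * m * r, Nat.mul_pos (Nat.mul_pos hj hm) hr, fun D => f 0 ^ (j * N) * β D,
      ⟨fun A D => ?_, fun P hP D hD => ?_, fun P hP _ D hD => h3 P hP D hD⟩, D0,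
      mul_ne_zero (pow_ne_zero _ hf0) hD0⟩
    · change f 0 ^ (j * N) * β _ = _
      rw [h1 A D, show j * (N * m) * r = j * m * r * N by ring]
      ring
    · exact h3 P hP D fun i => Pool.Agent.TH466.QG.derReg_of_log (hD i)

/-- **big + pseudo-effective = big** -/
theorem big_of_diff [CharZero K] {w r : ℕ} (htr : Algebra.trdeg ℂ K = w) (hr : 1 ≤ r)
    {a : Place ℂ K → ℤ} (h : PsefDiff K w r a) (hA : DivKodGe K w a w) :
    KodGe ℂ K w (fun _ => False) w := by
  classical
  obtain ⟨S, hS⟩ := h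
  obtain ⟨m, hm, f, hf0, hf, hind⟩ := hA
  obtain ⟨g, hg⟩ : ∃ g : Fin w → K, g = fun i => f i.succ / f 0 := ⟨_, rfl⟩
  rw [← hg] at hind
  have hTB : IsTranscendenceBasis ℂ g := by
    refine hind.isTranscendenceBasis_of_lift_trdeg_le_of_finite ?_
    rw [htr]
    simp
  have halg : Algebra.IsAlgebraic (Algebra.adjoin ℂ (Set.range g)) K := hTB.isAlgebraic
  obtain ⟨c, hc0, hc⟩ := Algebra.IsAlgebraic.exists_integral_multiples
    (R := Algebra.adjoin ℂ (Set.range g)) S
  have hc0' : (c : K) ≠ 0 := fun h => hc0 (Subtype.ext h)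
  obtain ⟨T, hT⟩ : ∃ T : ℕ, ∀ s ∈ S, ∀ (P : Place ℂ K) (μ : ℤ), μ ≤ 0 →
      (∀ i, Ge P μ (g i)) → Ge P (T * μ) ((c : K) * s) := by
    have h1 : ∀ s : S, ∃ E : ℕ, ∀ (P : Place ℂ K) (μ : ℤ), μ ≤ 0 →
        (∀ i, Ge P μ (g i)) → Ge P (E * μ) ((c : K) * s) := by
      intro s
      have h2 := hc s s.2
      rw [Algebra.smul_def] at h2
      exact Pool.Agent.N133.Big.ge_integral h2
    choose E' hE' using h1
    refine ⟨∑ s, E' s, fun s hs P μ hμ h => (hE' ⟨s, hs⟩ P μ hμ h).mono ?_⟩
    have h3 : E' ⟨s, hs⟩ ≤ ∑ s, E' s :=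
      Finset.single_le_sum (f := E') (fun _ _ => Nat.zero_le _) (Finset.mem_univ _)
    have h4 : (E' ⟨s, hs⟩ : ℤ) ≤ ((∑ s, E' s : ℕ) : ℤ) := by exact_mod_cast h3
    nlinarith
  obtain ⟨j, hj, β, h1, ⟨D0, hD0⟩, h2⟩ := hS ((T + 1) * m) (Nat.mul_pos (Nat.succ_pos T) hm)
  have hreg : ∀ (i : Fin (w + 1)) (P : Place ℂ K), Divisorial w P → ∀ D : Fin w → Derivation ℂ K K,
      (∀ i, DerReg P (D i)) → P.Reg (β D * ((c : K) * f 0 ^ T * f i) ^ j) := by
    intro i P hP D hD
    rcases h2 P hP D hD with h4 | ⟨s, hs, hs0, h4⟩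
    · left
      rw [h4, zero_mul]
    · by_cases hb : β D = 0
      · left
        rw [hb, zero_mul]
      by_cases hi0 : f i = 0
      · left
        rw [hi0, mul_zero, zero_pow (by omega), mul_zero]
      have hi := (hf i P hP).resolve_left hi0
      have h5 := (hf 0 P hP).resolve_left hf0
      have h6 := hT s hs P (-(m * a P + P.ord (f 0))) (by linarith) fun l => by
        rw [hg]
        change Ge P _ (f l.succ / f 0)
        rcases hf l.succ P hP with h7 | h7
        · left
          rw [h7, zero_div]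
        · by_cases h8 : f l.succ = 0
          · left
            rw [h8, zero_div]
          right
          rw [P.ord_div h8 hf0]
          linarith
      have h7 := h6.resolve_left (mul_ne_zero hc0' hs0)
      rw [P.ord_mul hc0' hs0] at h7
      right
      have hne := mul_ne_zero (mul_ne_zero hc0' (pow_ne_zero T hf0)) hi0
      rw [P.ord_mul hb (pow_ne_zero _ hne), P.ord_pow,
        P.ord_mul (mul_ne_zero hc0' (pow_ne_zero _ hf0)) hi0, P.ord_mul hc0' (pow_ne_zero _ hf0),
        P.ord_pow]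
      have h8 : (0 : ℤ) ≤ ((((T + 1) * m : ℕ) : ℤ) * a P + P.ord s) +
          (P.ord (c : K) + T * P.ord (f 0) + P.ord (f i)) := by
        push_cast at h7 ⊢
        nlinarith
      have h9 := mul_nonneg (Int.natCast_nonneg j) h8
      linarith
  refine ⟨j * ((T + 1) * m) * r, Nat.mul_pos (Nat.mul_pos hj
    (Nat.mul_pos (Nat.succ_pos T) hm)) hr,
    fun i D => β D * ((c : K) * f 0 ^ T * f i) ^ j, fun i => ⟨fun A D => ?_, fun P hP D hD => ?_,
      fun P hP _ D hD => hreg i P hP D hD⟩, D0, ?_, ?_⟩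
  · change β _ * _ = _
    rw [h1 A D]
    ring
  · exact hreg i P hP D fun l => Pool.Agent.TH466.QG.derReg_of_log (hD l)
  · exact mul_ne_zero hD0 (pow_ne_zero _ (mul_ne_zero (mul_ne_zero hc0' (pow_ne_zero _ hf0)) hf0))
  · rw [hg] at hind
    have h5 : (fun i : Fin w => β D0 * ((c : K) * f 0 ^ T * f i.succ) ^ j /
        (β D0 * ((c : K) * f 0 ^ T * f 0) ^ j)) = fun i => (f i.succ / f 0) ^ j := by
      funext i
      rw [mul_div_mul_left _ _ hD0, ← div_pow,
        mul_div_mul_left _ _ (mul_ne_zero hc0' (pow_ne_zero _ hf0))]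
    change AlgebraicIndependent ℂ (fun i : Fin w => β D0 * ((c : K) * f 0 ^ T * f i.succ) ^ j /
        (β D0 * ((c : K) * f 0 ^ T * f 0) ^ j))
    rw [h5]
    exact indep_pow hind hj

/-- **The inequality of Campana and Peternell** if the Kodaira dimension is at least `dim - 1` or the
canonical class is not pseudo-effective. -/
theorem cp_of_diff {n r : ℕ} (htr : Algebra.trdeg ℂ K = (n + 1 : ℕ)) (hr : 1 ≤ r)
    {a : Place ℂ K → ℤ} (hd : Psef ℂ K (n + 1) (fun _ => False) →
      KodGe ℂ K (n + 1) (fun _ => False) n) (h : PsefDiff K (n + 1) r a) {l : ℕ}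
    (hA : DivKodGe K (n + 1) a l) : KodGe ℂ K (n + 1) (fun _ => False) l := by
  classical
  have hcK : CharZero K := charZero_of_injective_algebraMap (algebraMap ℂ K).injective
  rcases Nat.lt_or_ge n l with hl | hl
  · have hl1 : l = n + 1 := by
      obtain ⟨m, hm, f, hf0, hf, hind⟩ := hA
      have h1 := hind.lift_cardinalMk_le_trdeg
      rw [htr] at h1
      simp only [Cardinal.mk_fin, Cardinal.lift_natCast] at h1
      have h2 : l ≤ n + 1 := by exact_mod_cast h1
      omega
    subst hl1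
    exact big_of_diff htr hr h hA
  · obtain ⟨N, hN, ω, h1, D, h2, h3⟩ := hd (psef_of_diff hr h (hA.mono (Nat.zero_le l)))
    refine ⟨N, hN, fun i => ω (Fin.castLE (by omega) i), fun i => h1 _, D, h2, ?_⟩
    exact h3.comp (Fin.castLE hl) (Fin.castLE_injective hl)

end

end Pool.Agent.P8H56.CP
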